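import Pool.Agent.Helper75.SR.Goals2
import Pool.Agent.Helper54.SRD.Basic
import Pool.Agent.Helper10.SR.One

/-!
# Reeb orbits are short (packet SR-GReeb of MP_d08e19_gt)
-/

set_option autoImplicit false

namespace Pool.Agent.Helper65.SR

open scoped ContDiff Topology Manifold Matrix
open Set Real Pool.Agent.Helper54.SRD Pool.Agent.Helper75.SR

/-- If the velocity has the norm of its Reeb component, it is vertical. -/
theorem velocity_eq {E : Type} [NormedAddCommGroup E] [NormedSpace ℝ E] {U : Set E}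
    (S : LocSas E U) {β w : ℝ} (hw : (1 + β) * w ^ 2 = 1) {z : E} (hz : z ∈ U) (T : E)
    (h1 : S.Gb β z T T = 1) (h2 : ∀ i, S.g z (S.xi i z) T = ![w, 0, 0] i) :
    T = w • S.xi 0 z := by
  have h0 : S.g z (S.xi 0 z) T = w := h2 0
  have h3 : S.g z T T = 1 - β * w ^ 2 := by
    rw [S.Gb_apply] at h1
    simp only [h2, Fin.sum_univ_three, Matrix.cons_val_zero, Matrix.cons_val_one,
      Matrix.cons_val] at h1
    linarith
  have h4 : S.g z T (S.xi 0 z) = w := by rw [S.g_symm z hz, h0]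
  have h5 : S.g z (S.xi 0 z) (S.xi 0 z) = 1 := by simpa using S.orth z hz 0 0
  have h6 : S.g z (T - w • S.xi 0 z) (T - w • S.xi 0 z) = 0 := by
    simp only [map_sub, map_smul, sub_apply, smul_apply, smul_eq_mul,
      h0, h3, h4, h5]
    linarith
  by_contra hne
  have := S.g_pos z hz _ (sub_ne_zero.2 hne)
  linarith

theorem greebFrame (hLoc : GReebLoc) (hTr : GTransFrame) : GReebFrame := by
  intro E _ _ _ M _ _ _ S β γ a b c d w x₀ hfin hβ hw hG hac hcd hdb hsrc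
  have hab : a < b := by linarith
  have hvel : ∀ t ∈ Icc a b, deriv (bx E γ x₀) t = w • (S.loc x₀).xi 0 (bx E γ x₀ t) := by
    intro t ht
    obtain ⟨h2, h3, h4, _⟩ := (hG t ht).2 x₀ (hsrc t ht)
    exact velocity_eq (S.loc x₀) hw (ch_mem (hsrc t ht)) _ h3 h4
  obtain ⟨e, he⟩ := hLoc E (tgt E x₀) (S.loc x₀) (2 * (1 + β) * w - w) w a b (bx E γ x₀) hfin hab
    (by
      intro t ht
      refine ⟨ch_mem (hsrc t ht), ?_⟩
      rw [← hvel t ht]
      exact (((hG t ht).2 x₀ (hsrc t ht)).1.differentiableAt (by norm_num)).hasDerivAt)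
  refine ⟨fun x s => fderiv ℝ (tr x₀ x) (bx E γ x₀ s) (e s), fun t ht => ?_⟩
  have ht' : t ∈ Ioo a b := ⟨by linarith [ht.1], by linarith [ht.2]⟩
  have ht'' : t ∈ Icc a b := Ioo_subset_Icc_self ht'
  obtain ⟨h1, h2, h3, h4⟩ := he t ht'
  refine hTr E M S β γ 0 w t x₀ e (hG t ht'').1 (hsrc t ht'')
    ((hG t ht'').2 x₀ (hsrc t ht'')).1 h1 h2 h3 ?_ ?_
  · rw [hvel t ht'', zero_smul, zero_add]
  · rw [hvel t ht'']
    exact h4

theorem ametric_ext {E M : Type} [NormedAddCommGroup E] [NormedSpace ℝ E] [TopologicalSpace M]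
    [ChartedSpace E M] {G₁ G₂ : AMetric E M} (h : G₁.G = G₂.G) : G₁ = G₂ := by
  cases G₁
  cases G₂
  cases h
  rfl

theorem speed_zero {E M : Type} [NormedAddCommGroup E] [NormedSpace ℝ E] [TopologicalSpace M]
    [ChartedSpace E M] (S : ASas E M) {β : ℝ} (hβ : 0 ≤ β) {c : ℝ} {γ : ℝ → M} {t : ℝ}
    (h : SpeedLE (S.met β hβ) c γ t) : SpeedLE (S.met 0 le_rfl) c γ t := by
  refine ⟨h.1, fun δ hδ => ?_⟩
  filter_upwards [h.2 δ hδ] with p hp
  refine le_trans ?_ hp
  unfold nm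
  refine Real.sqrt_le_sqrt ?_
  show (S.loc (γ t)).Gb 0 _ _ _ ≤ (S.loc (γ t)).Gb β _ _ _
  rw [LocSas.Gb_apply, LocSas.Gb_apply, zero_mul, add_zero]
  have h2 : 0 ≤ ∑ a : Fin 3, (S.loc (γ t)).g (ch (γ t) (γ t)) ((S.loc (γ t)).xi a
      (ch (γ t) (γ t))) (ch (γ t) (γ p.2) - ch (γ t) (γ p.1)) *
      (S.loc (γ t)).g (ch (γ t) (γ t)) ((S.loc (γ t)).xi a (ch (γ t) (γ t)))
        (ch (γ t) (γ p.2) - ch (γ t) (γ p.1)) :=
    Finset.sum_nonneg fun a _ => mul_self_nonneg _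
  have := mul_nonneg hβ h2
  linarith

/-- With `τ = 0` the curvature does not enter the quadratic form. -/
theorem qq_tau_zero (β w : ℝ) (Rm Rm' : Fin 3 → Fin 3 → ℝ) (p p' : ℝ) (f f' g g' : Fin 3 → ℝ) :
    qq β 0 w Rm p p' f f' g g' = qq β 0 w Rm' p p' f f' g g' := by
  simp [qq]

/-- The coefficient of `e`. -/
noncomputable def cP (β w L c t : ℝ) : ℝ :=
  2 * ((1 + β) * w) * (L / (2 * π)) * (1 - cos (2 * π / L * (t - c)))

/-- The coefficients of `φ_a e`. -/
noncomputable def cF (L c : ℝ) (i : Fin 3) (t : ℝ) : ℝ :=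
  ![sin (2 * π / L * (t - c)), 0, 0] i

theorem cP_deriv (β w L c t : ℝ) (hL : 0 < L) :
    deriv (cP β w L c) t = 2 * ((1 + β) * w) * sin (2 * π / L * (t - c)) := by
  have h1 : HasDerivAt (fun s : ℝ => 2 * π / L * (s - c)) (2 * π / L) t := by
    simpa using ((hasDerivAt_id t).sub_const c).const_mul (2 * π / L)
  have h2 := (h1.cos.const_sub 1).const_mul (2 * ((1 + β) * w) * (L / (2 * π)))
  have h3 : HasDerivAt (cP β w L c) (2 * ((1 + β) * w) * (L / (2 * π)) *
      (-(-sin (2 * π / L * (t - c)) * (2 * π / L)))) t := h2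
  rw [h3.deriv]
  have := Real.pi_pos
  field_simp

theorem cF_deriv (L c t : ℝ) (i : Fin 3) :
    deriv (cF L c i) t = ![2 * π / L * cos (2 * π / L * (t - c)), 0, 0] i := by
  have h1 : HasDerivAt (fun s : ℝ => 2 * π / L * (s - c)) (2 * π / L) t := by
    simpa using ((hasDerivAt_id t).sub_const c).const_mul (2 * π / L)
  fin_cases i
  · have h2 : HasDerivAt (cF L c 0) (cos (2 * π / L * (t - c)) * (2 * π / L)) t := h1.sin
    show deriv (cF L c 0) t = _
    rw [h2.deriv]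
    simp [mul_comm]
  · have h2 : cF L c 1 = fun _ => 0 := by
      funext s
      simp [cF]
    show deriv (cF L c 1) t = _
    rw [h2]
    simp
  · have h2 : cF L c 2 = fun _ => 0 := by
      funext s
      simp [cF]
    show deriv (cF L c 2) t = _
    rw [h2]
    simp

theorem cP_smooth (β w L c : ℝ) : ContDiff ℝ ∞ (cP β w L c) := by
  unfold cP
  fun_prop

theorem cF_smooth (L c : ℝ) (i : Fin 3) : ContDiff ℝ ∞ (cF L c i) := by
  fin_cases i
  · show ContDiff ℝ ∞ (fun t => sin (2 * π / L * (t - c)))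
    fun_prop
  · show ContDiff ℝ ∞ (fun _ : ℝ => (0 : ℝ))
    exact contDiff_const
  · show ContDiff ℝ ∞ (fun _ : ℝ => (0 : ℝ))
    exact contDiff_const

/-- The second variation integrand of the field. -/
noncomputable def cS (β w L c t : ℝ) : ℝ :=
  qq β 0 w (fun _ _ => 0) (cP β w L c t) (2 * ((1 + β) * w) * sin (2 * π / L * (t - c)))
    ![sin (2 * π / L * (t - c)), 0, 0] ![2 * π / L * cos (2 * π / L * (t - c)), 0, 0]
    ![0, 0, 0] ![0, 0, 0]

theorem cS_continuous (β w L c : ℝ) : Continuous (cS β w L c) := by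
  unfold cS qq cP
  simp only [Fin.sum_univ_three, Matrix.cons_val_zero, Matrix.cons_val_one, Matrix.cons_val]
  fun_prop

theorem cS_integral (β w L c : ℝ) (hL : 0 < L) :
    ∫ t in c..(c + L), cS β w L c t ≤ (L / 2) * ((2 * π / L) ^ 2 - 4 * ((1 + β) * w) ^ 2) := by
  have h1 := Pool.Agent.Helper10.SR.gone β 0 w L 0 hL le_rfl (cS β w L 0)
    ((cS_continuous β w L 0).intervalIntegrable 0 L) (by
      intro t
      refine ⟨fun _ _ => 0, by simp, ?_⟩
      simp only [cS, cP, sub_zero, mul_zero, neg_zero, zero_mul])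
  have h2 : ∫ t in c..(c + L), cS β w L c t = ∫ t in (0 : ℝ)..L, cS β w L 0 t := by
    have h3 : ∀ t, cS β w L c t = (fun s => cS β w L 0 s) (t - c) := by
      intro t
      simp only [cS, cP, sub_zero]
    simp_rw [h3]
    rw [intervalIntegral.integral_comp_sub_right (fun s => cS β w L 0 s) c]
    simp
  rw [h2]
  simpa using h1

/-- Uniform time during which curves stay in one chart. -/
theorem uniform_chart (hEXIT : ∀ (E : Type) [NormedAddCommGroup E] [NormedSpace ℝ E]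
      [FiniteDimensional ℝ E] (M : Type) [TopologicalSpace M] [ChartedSpace E M]
      [IsManifold 𝓘(ℝ, E) ∞ M], S_EXIT E M)
    (E : Type) [NormedAddCommGroup E] [NormedSpace ℝ E] [FiniteDimensional ℝ E]
    (M : Type) [TopologicalSpace M] [ChartedSpace E M] [IsManifold 𝓘(ℝ, E) ∞ M]
    [CompactSpace M] [T2Space M] (G : AMetric E M) :
    ∃ r > 0, ∀ (γ : ℝ → M) (t₀ : ℝ), (∀ t, SpeedLE G 1 γ t) →
      ∃ x₀ : M, ∀ t, |t - t₀| < r → γ t ∈ src E x₀ := by
  have h := fun x : M => hEXIT E M inferInstance G 1 x (src E x) zero_le_one (src_mem_nhds x)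
  choose N hN r hr hNr using h
  obtain ⟨s, hs⟩ := finite_cover_nhds (X := M) hN
  rcases s.eq_empty_or_nonempty with hs0 | hs0
  · refine ⟨1, one_pos, fun γ t₀ _ => ?_⟩
    exfalso
    rw [hs0] at hs
    have : γ t₀ ∈ (univ : Set M) := mem_univ _
    rw [← hs] at this
    simp at this
  · refine ⟨s.inf' hs0 r, ?_, fun γ t₀ hγ => ?_⟩
    · rw [gt_iff_lt, Finset.lt_inf'_iff]
      exact fun x _ => hr x
    · have : γ t₀ ∈ (univ : Set M) := mem_univ _
      rw [← hs] at this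
      simp only [mem_iUnion] at this
      obtain ⟨x, hx, hx2⟩ := this
      exact ⟨x, fun t ht => hNr x γ t₀ hγ hx2 t (lt_of_lt_of_le ht (Finset.inf'_le _ hx))⟩

theorem greeb (hEXIT : ∀ (E : Type) [NormedAddCommGroup E] [NormedSpace ℝ E]
      [FiniteDimensional ℝ E] (M : Type) [TopologicalSpace M] [ChartedSpace E M]
      [IsManifold 𝓘(ℝ, E) ∞ M], S_EXIT E M)
    (hINDEX : ∀ (E : Type) [NormedAddCommGroup E] [NormedSpace ℝ E]
      [FiniteDimensional ℝ E] (M : Type) [TopologicalSpace M] [ChartedSpace E M]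
      [IsManifold 𝓘(ℝ, E) ∞ M], S_INDEX E M)
    (hFrame : GReebFrame) (hFV : GFV) (hRotA : GRotA) (hSO3 : GSO3) (hGeoRot : GGeoRot) :
    GReeb := by
  intro E _ _ _ M _ _ _ _ _ _ S ℓ hfin hℓ
  obtain ⟨r, hr, hexit⟩ := uniform_chart hEXIT E M (S.met 0 le_rfl)
  obtain ⟨δ, hδ⟩ : ∃ δ, δ = min (r / 2) (ℓ / 2) := ⟨_, rfl⟩
  have hδ0 : 0 < δ := by
    rw [hδ]
    exact lt_min (by linarith) (by linarith)
  have hδr : δ ≤ r / 2 := by
    rw [hδ]
    exact min_le_left _ _
  have hδℓ : δ ≤ ℓ / 2 := by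
    rw [hδ]
    exact min_le_right _ _
  refine ⟨(π / δ) ^ 2, ?_⟩
  intro β hβ γ a b W hβ₀ hab hsp hG hgeo htau hcontra
  obtain ⟨t₀, ht₀⟩ : ∃ t₀, t₀ = (a + b) / 2 := ⟨_, rfl⟩
  obtain ⟨x₀, hx₀⟩ := hexit γ t₀ fun t => speed_zero S hβ (hsp t)
  obtain ⟨w, hw⟩ : ∃ w, w = √(∑ i, W i ^ 2) := ⟨_, rfl⟩
  have hw2 : w ^ 2 = ∑ i, W i ^ 2 := by
    rw [hw]
    exact Real.sq_sqrt (Finset.sum_nonneg fun i _ => sq_nonneg _)
  have hw1 : (1 + β) * w ^ 2 = 1 := by rw [hw2, hcontra]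
  obtain ⟨A, hA, hAW⟩ := hSO3 W
  obtain ⟨S', hS'⟩ := hRotA E M S A hA
  have hG' := hGeoRot E M S S' A β γ a b W hA hS' hG
  have hWeq : (fun i => ∑ j, A i j * W j) = ![w, 0, 0] := by
    funext i
    rw [hAW i]
    fin_cases i <;> simp [hw]
  rw [hWeq] at hG'
  have hmet : S'.met β hβ = S.met β hβ := by
    apply ametric_ext
    funext x
    exact (hS' x).2.2.2 β
  -- the intervals
  have hI : ∀ t, t₀ - δ ≤ t → t ≤ t₀ + δ → t ∈ Icc a b := by
    intro t h1 h2
    constructor <;> linarith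
  have hsrc : ∀ t, t₀ - δ ≤ t → t ≤ t₀ + δ → γ t ∈ src E x₀ := by
    intro t h1 h2
    refine hx₀ t ?_
    rw [abs_lt]
    constructor <;> linarith
  obtain ⟨c, hc⟩ : ∃ c, c = t₀ - δ / 2 := ⟨_, rfl⟩
  have hd : c + δ = t₀ + δ / 2 := by rw [hc]; ring
  obtain ⟨e, he⟩ := hFrame E M S' β γ (t₀ - δ) (t₀ + δ) c (c + δ) w x₀ hfin hβ hw1
    (fun t ht => hG' t (hI t ht.1 ht.2)) (by linarith) (by linarith) (by linarith)
    (fun t ht => hsrc t ht.1 ht.2)
  have hcI : ∀ t ∈ Icc c (c + δ), t ∈ Icc a b := fun t ht =>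
    hI t (by linarith [ht.1]) (by linarith [ht.2])
  have hcsrc : ∀ t ∈ Icc c (c + δ), γ t ∈ src E x₀ := fun t ht =>
    hsrc t (by linarith [ht.1]) (by linarith [ht.2])
  have hfv := fun t (ht : t ∈ Icc c (c + δ)) =>
    hFV E M S' β hβ γ 0 w t e (cP β w δ c) (cF δ c) (fun _ _ => 0) (he t ht)
      (cP_smooth β w δ c) (cF_smooth δ c) (fun _ => contDiff_const)
  have hpi := Real.pi_pos
  have hidx := hINDEX E M inferInstance inferInstance inferInstance (S'.met β hβ) S'.conn γ c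
    (c + δ) 1 (fun _ => fV S' γ e (cP β w δ c) (cF δ c) (fun _ _ => 0)) (cS β w δ c)
    (by linarith)
    (by
      intro t ht
      rw [hmet]
      exact hgeo t (hcI t ht))
    (by
      rw [hmet]
      have h1 := htau c (c + δ) (hcI c (left_mem_Icc.2 (by linarith))).1 (by linarith)
        (hcI (c + δ) (right_mem_Icc.2 (by linarith))).2
      rw [h1])
    (fun _ t ht x hx => (hfv t ht).1 x hx)
    (fun _ t ht x y hx hy => (hfv t ht).2.1 x y hx hy)
    (by
      intro _ x _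
      simp [fV, cP, cF, Fin.sum_univ_three])
    (by
      intro _ x _
      have h1 : 2 * π / δ * δ = 2 * π := by
        field_simp
      simp [fV, cP, cF, Fin.sum_univ_three, h1])
    (cS_continuous β w δ c).continuousOn
    (by
      intro t ht
      refine ⟨x₀, hcsrc t ht, Filter.Eventually.of_forall fun t' ht' => le_of_eq ?_⟩
      obtain ⟨Rm, _, _, _, hqv⟩ := (hfv t' ht').2.2 x₀ (hcsrc t' ht')
      rw [Fin.sum_univ_one, hqv, qq_tau_zero β w Rm (fun _ _ => 0)]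
      unfold cS
      rw [cP_deriv β w δ c t' hδ0]
      congr 1
      · funext i
        exact cF_deriv δ c t' i
      · funext i
        fin_cases i <;> simp
      · funext i
        fin_cases i <;> simp)
  have h1 := hidx.trans (cS_integral β w δ c hδ0)
  have h2 : ((1 + β) * w) ^ 2 = 1 + β := by
    have : ((1 + β) * w) ^ 2 = (1 + β) * ((1 + β) * w ^ 2) := by ring
    rw [this, hw1, mul_one]
  have h3 : (2 * π / δ) ^ 2 = 4 * (π / δ) ^ 2 := by ring
  rw [h2, h3] at h1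
  have h4 : 0 ≤ 4 * (π / δ) ^ 2 - 4 * (1 + β) := by
    by_contra hneg
    push Not at hneg
    have := mul_neg_of_pos_of_neg (half_pos hδ0) hneg
    linarith
  linarith

end Pool.Agent.Helper65.SR
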